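import Pool.Agent.Helper217.KT.JMainNecessity
import Pool.Agent.Helper217.KT.JMainSufficiency

set_option autoImplicit false

namespace Pool.Agent.Results.MP_cde9db_gt.KToOneCriterion

open Pool.Agent.Helper217.KT

/-- Characterisation of the existence of an exactly `k`-to-1 continuous map between finite
graphs, in terms of a finite list of combinatorial data. -/
theorem result (k : ℕ) (hk : 1 < k) {V W : Type} [Fintype V] [Fintype W]
    (G : SimpleGraph V) (H : SimpleGraph W)
    {X Y : Type} [TopologicalSpace X] [TopologicalSpace Y]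
    (eX : X ≃ₜ real G) (eY : Y ≃ₜ real H) :
    (∃ f : X → Y, Continuous f ∧ ∀ y : Y, Nat.card {x : X // f x = y} = k) ↔
      ∃ m : ℕ, m ≤ Fintype.card V + Fintype.card W ∧
        ∃ (G' : SimpleGraph (Fin (k * m))) (H' : SimpleGraph (Fin m))
          (φ : Fin (k * m) → Fin m),
          IsSubdivision G G' ∧ IsSubdivision H H' ∧ Compatible k G' H' φ := by
  constructor
  · rintro ⟨f, hf, hk'⟩
    have hc : Continuous (fun x : real G => eY (f (eX.symm x))) :=
      eY.continuous.comp (hf.comp eX.symm.continuous)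
    refine main_necessity k hk G H (fun x => eY (f (eX.symm x))) hc fun y => ?_
    rw [← hk' (eY.symm y)]
    refine Nat.card_congr ⟨fun x => ⟨eX.symm x.1, ?_⟩, fun x => ⟨eX x.1, ?_⟩, ?_, ?_⟩
    · rw [eq_comm, eY.symm_apply_eq]; exact x.2.symm
    · simp [x.2]
    · intro x; simp
    · intro x; simp
  · rintro ⟨m, -, G', H', φ, hG, hH, hc⟩
    obtain ⟨f, hf, hk'⟩ := main_sufficiency k hk G H G' H' φ hG hH hc
    refine ⟨fun x => eY.symm (f (eX x)), eY.symm.continuous.comp (hf.comp eX.continuous),
      fun y => ?_⟩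
    rw [← hk' (eY y)]
    refine Nat.card_congr ⟨fun x => ⟨eX x.1, ?_⟩, fun x => ⟨eX.symm x.1, ?_⟩, ?_, ?_⟩
    · have := x.2; rw [eY.symm_apply_eq] at this; exact this
    · simp [x.2]
    · intro x; simp
    · intro x; simp

end Pool.Agent.Results.MP_cde9db_gt.KToOneCriterion
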